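import Pool.Agent.Run7.h334.FM.Main

set_option autoImplicit false

/-!
# No algorithm decides whether two homeomorphic smooth 4-manifolds are diffeomorphic

Q1 asks for an algorithm which, given triangulations of two homeomorphic smooth 4-manifolds, decides
whether they are diffeomorphic. The answer is no, already for closed connected nonorientable
4-manifolds, and also for stable diffeomorphism.

**The manifolds.** Let `G = ⟨x_0, …, x_{n-1} | R⟩` be a finite aspherical presentation of a
torsion-free group with unsolvable word problem (Collins and Miller 1999). For a word `w` let `P_w` be
the presentation `⟨x_0, …, x_{n-1}, t | R, [t, w]⟩`, with bit `0` at the relators in `R` and bit `1` at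
the relator `[t, w]`. For a presentation `P` with bits let `N(P)` be the boundary of the orientable
5-dimensional handlebody with one 1-handle for each generator and one 2-handle for each relator, whose
`w_2` is the class of the 2-cocycle given by the bits. Let `V` be the nonorientable `S³`-bundle over the
circle, and
`X_1(w) = N(P_w) # V # K3`, `X_2(w) = N(P_w) # V # 11(S² × S²)`.

* `X_1(w)` and `X_2(w)` are homeomorphic for all `w`: by Freedman the K3 surface is homeomorphic to the
  sum of two copies of the (negative) `E_8`-manifold and of `3(S² × S²)`, one of the two copies can be
  slid around an orientation reversing loop of `V`, and `E_8 # -E_8` is homeomorphic to `8(S² × S²)`.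
* If `w = 1` in `G` then `X_1(w)` and `X_2(w)` are diffeomorphic: the attaching circle of the last
  2-handle is then isotopic to a trivial circle in the boundary of the other handles, which is a spin
  manifold, so `N(P_w) = A # D` with `D` the nontrivial `S²`-bundle over `S²`, that is `D = ℂP² # -ℂP²`.
  And `D # V # K3` and `D # V # 11(S² × S²)` are both diffeomorphic to `24 ℂP² # V`
  (`K3 # ℂP² = 4ℂP² # 19(-ℂP²)`, Mandelbaum and Moishezon; `ℂP² # V = -ℂP² # V`).
* If `w ≠ 1` in `G` then `X_1(w)` and `X_2(w)` are not even stably diffeomorphic: `P_w` presents an HNN
  extension of `G` along `⟨w⟩ ≅ ℤ`, so it is aspherical (proved here), and `π = π_1(X_i(w))` has a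
  2-dimensional classifying space. As `w_2` of both manifolds comes from `π`, they have the same
  normal 1-type `B`; `X_2(w)` is a boundary over `B`, `X_1(w)` represents the class of K3 in `Ω_4(B)`,
  and this class is not zero, as it generates the subgroup `E^∞_{0,4} = H_0(π; ℤ^{w_1}) = ℤ/2` of the
  Atiyah-Hirzebruch spectral sequence (`H_p(π; -) = 0` for `p ≥ 3`, `Ω_3^{Spin} = 0`). A direct reason:
  if K3 bounded a 5-manifold `Q` over the 2-complex `K(π, 1)` with twisted spin structure, cut `Q`
  along the preimages of the centres of the 2-cells and 1-cells; by Novikov additivity
  `-16 + 2 σ(F) = 0` for the preimage `F` of the orientation reversing circle, a closed spin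
  4-manifold, against Rochlin's theorem `16 | σ(F)`.

So an algorithm for Q1 would solve the word problem of `G`.

**What is formalised.** `Tri`, `cx`, `real`, `PLEq`, `TopEq`, `lnk`, `Mfd`, `Orientable`, `Non` (finite
simplicial complexes, their underlying spaces, PL homeomorphism as stellar equivalence, which by
Alexander and Newman is the same as PL homeomorphism and in dimension 4 the same as diffeomorphism of
the smooth manifolds determined by the triangulations, homeomorphism, closed connected combinatorial
4-manifolds), `Word`, `FP`, `Gr`, `ev`, `fox`, `Asph` (finite presentations with bits, their groups,
Fox derivatives, asphericity), `CollinsMiller`, and `Facts` with `IsSum`, `IsThick`, `IsPair`, `IsBord`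
(the published facts on 4-manifolds that are used, with the objects they are about) are defined in
`Pool.Agent.Run7.h334.FM.Defs`. Proved in Lean: the group of `P` embeds in the group of `P_w`; the
presentation `P_w` is aspherical if `P` is and `w` has infinite order; the relator `[t, w]` is trivial
modulo the other relators if `w = 1`; the map from words to pairs of triangulations is computable; the
reduction of the word problem.
-/

open Run7.h334.FM

/-- Let `F` be the facts on closed 4-manifolds and assume the theorem of Collins and Miller. Let `C` be
any class of triangulations containing the closed connected nonorientable combinatorial 4-manifolds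
and `R` any relation which holds for PL homeomorphic triangulations and implies stable PL
homeomorphism (for instance PL homeomorphism itself, that is diffeomorphism of the smooth manifolds).
There is no partial computable function which, for any two homeomorphic members of `C`, halts and
decides whether they are in the relation `R`. -/
theorem Pool.Agent.Results.MP_d40431_gt.NoAlgorithm.result (F : Facts) (hCM : CollinsMiller)
    (C : Tri → Prop) (hC : ∀ K, Non K → C K) (R : Tri → Tri → Prop)
    (h₁ : ∀ K L, PLEq K L → R K L) (h₂ : ∀ K L, R K L → Stab F.sum F.H K L) :
    ¬ ∃ f : Tri → Tri →. Bool, Partrec₂ f ∧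
      ∀ K L, C K → C L → TopEq K L → (true ∈ f K L ↔ R K L) ∧ (false ∈ f K L ↔ ¬ R K L) :=
  no_algorithm F hCM C hC R h₁ h₂
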